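import Mathlib

/-!
# Groups of matrices and the algebras generated by them on tensor powers: definitions
-/

open Matrix Module

namespace Pool.Agent.R920.LG

variable {K ι : Type*} [Field K] [Fintype ι] [DecidableEq ι]

/-- The `n`-th tensor power (Kronecker power) of the matrix `g ⊕ 1`. -/
def tpow (n : ℕ) (g : Matrix ι ι K) : Matrix (Fin n → ι ⊕ Unit) (Fin n → ι ⊕ Unit) K :=
  Matrix.of fun s t => ∏ i, fromBlocks g 0 0 1 (s i) (t i)

/-- The dimension of the algebra generated by the group `G` on the `n`-th tensor power of the sum of
the given representation and of the trivial representation of dimension one. -/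
noncomputable def algDim (G : Subgroup (GL ι K)) (n : ℕ) : ℕ :=
  finrank K (Algebra.adjoin K ((fun g : GL ι K => tpow n (g : Matrix ι ι K)) '' (G : Set (GL ι K))))

/-- The value of a polynomial in the entries at the matrix `g`. -/
noncomputable def val (f : MvPolynomial (ι × ι) K) (g : GL ι K) : K :=
  MvPolynomial.eval (fun x => (g : Matrix ι ι K) x.1 x.2) f

/-- `g` is in the Zariski closure of `S`: all polynomials in the entries which vanish on `S` vanish
at `g`. -/
def InClosure (S : Set (GL ι K)) (g : GL ι K) : Prop :=
  ∀ f : MvPolynomial (ι × ι) K, (∀ s ∈ S, val f s = 0) → val f g = 0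

/-- The Zariski closure of `S` is irreducible (for a group: connected). -/
def IsIrreducible (S : Set (GL ι K)) : Prop :=
  ∀ f g : MvPolynomial (ι × ι) K, (∀ s ∈ S, val f s * val g s = 0) →
    (∀ s ∈ S, val f s = 0) ∨ ∀ s ∈ S, val g s = 0

end Pool.Agent.R920.LG
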