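import Pool.Agent.R920.LG.Pts

/-!
# The algebra generated on the tensor powers
-/

open Matrix Module Submodule

namespace Pool.Agent.R920.LG

section Dual

variable {k X J : Type*} [Field k] [Finite J]

/-- The span of a family of vectors and the span of the coordinate functions have the same
dimension. -/
lemma finrank_rows (w : X → J → k) : finrank k (span k (Set.range w)) =
    finrank k (span k (Set.range fun (j : J) (x : X) => w x j)) := by
  classical
  have := Fintype.ofFinite J
  let U : Submodule k (J → k) := span k (Set.range w)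
  let Ψ : Dual k U →ₗ[k] (X → k) :=
    { toFun := fun ℓ x => ℓ ⟨w x, subset_span ⟨x, rfl⟩⟩
      map_add' := fun a b => rfl
      map_smul' := fun r a => rfl }
  have hinj : Function.Injective Ψ := by
    rw [← LinearMap.ker_eq_bot, LinearMap.ker_eq_bot']
    intro ℓ hℓ
    apply LinearMap.ext
    rintro ⟨a, ha⟩
    refine Submodule.span_induction (p := fun a ha => ℓ ⟨a, ha⟩ = 0) ?_ ?_ ?_ ?_ ha
    · rintro _ ⟨x, rfl⟩
      exact congrFun hℓ x
    · exact map_zero ℓ
    · intro a b ha hb h1 h2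
      have h3 : (⟨a + b, add_mem ha hb⟩ : U) = ⟨a, ha⟩ + ⟨b, hb⟩ := rfl
      rw [h3, map_add, h1, h2, add_zero]
    · intro r a ha h1
      have h3 : (⟨r • a, Submodule.smul_mem _ r ha⟩ : U) = r • ⟨a, ha⟩ := rfl
      rw [h3, map_smul, h1, smul_zero]
  have hrange : LinearMap.range Ψ = span k (Set.range fun (j : J) (x : X) => w x j) := by
    apply le_antisymm
    · rintro _ ⟨ℓ, rfl⟩
      obtain ⟨ℓ', hℓ'⟩ := LinearMap.exists_extend ℓ
      have h2 : Ψ ℓ = ∑ j, ℓ' (Pi.single j 1) • fun x => w x j := by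
        funext x
        have h3 : Ψ ℓ x = ℓ' (w x) := by
          rw [← hℓ']
          rfl
        rw [h3, Finset.sum_apply]
        conv_lhs => rw [pi_eq_sum_univ' (w x)]
        rw [map_sum]
        refine Finset.sum_congr rfl fun j _ => ?_
        rw [map_smul, Pi.smul_apply, smul_eq_mul, smul_eq_mul, mul_comm]
      rw [h2]
      exact Submodule.sum_mem _ fun j _ => Submodule.smul_mem _ _ (subset_span ⟨j, rfl⟩)
    · rw [span_le]
      rintro _ ⟨j, rfl⟩
      exact ⟨(LinearMap.proj j) ∘ₗ U.subtype, rfl⟩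
  rw [← hrange, LinearMap.finrank_range_of_inj hinj]
  exact (Subspace.dual_finrank_eq (K := k) (V := U)).symm

end Dual

variable {K ι : Type*} [Field K] [Fintype ι] [DecidableEq ι]

lemma tpow_mul (n : ℕ) (g h : Matrix ι ι K) : tpow n (g * h) = tpow n g * tpow n h := by
  have e : fromBlocks (g * h) 0 0 (1 : Matrix Unit Unit K) =
      fromBlocks g 0 0 1 * fromBlocks h 0 0 1 := by
    rw [fromBlocks_multiply]
    simp
  ext s t
  rw [Matrix.mul_apply]
  show ∏ i, fromBlocks (g * h) 0 0 (1 : Matrix Unit Unit K) (s i) (t i) = _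
  rw [e]
  simp only [Matrix.mul_apply]
  rw [Finset.prod_univ_sum, Fintype.piFinset_univ]
  refine Finset.sum_congr rfl fun u _ => ?_
  rw [Finset.prod_mul_distrib]
  rfl

lemma tpow_one (n : ℕ) : tpow n (1 : Matrix ι ι K) = 1 := by
  ext s t
  show ∏ i, fromBlocks (1 : Matrix ι ι K) 0 0 (1 : Matrix Unit Unit K) (s i) (t i) = _
  rw [fromBlocks_one]
  by_cases h : s = t
  · rw [h, Matrix.one_apply_eq]
    simp
  · rw [Matrix.one_apply_ne h]
    obtain ⟨i, hi⟩ := Function.ne_iff.1 h
    exact Finset.prod_eq_zero (Finset.mem_univ i) (Matrix.one_apply_ne hi)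

/-- The tensor powers as a homomorphism. -/
def tpowHom (n : ℕ) : Matrix ι ι K →* Matrix (Fin n → ι ⊕ Unit) (Fin n → ι ⊕ Unit) K where
  toFun := tpow n
  map_one' := tpow_one n
  map_mul' := tpow_mul n

lemma adjoin_eq (G : Subgroup (GL ι K)) (n : ℕ) :
    Subalgebra.toSubmodule (Algebra.adjoin K
      ((fun g : GL ι K => tpow n (g : Matrix ι ι K)) '' (G : Set (GL ι K)))) =
      span K (Set.range fun g : G => tpow n ((g : GL ι K) : Matrix ι ι K)) := by
  rw [Algebra.adjoin_eq_span]
  congr 1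
  have h1 : ((fun g : GL ι K => tpow n (g : Matrix ι ι K)) '' (G : Set (GL ι K))) =
      (G.toSubmonoid.map ((tpowHom n).comp (Units.coeHom (Matrix ι ι K))) : Set _) := rfl
  rw [h1, Submonoid.closure_eq]
  ext x
  constructor
  · rintro ⟨g, hg, rfl⟩
    exact ⟨⟨g, hg⟩, rfl⟩
  · rintro ⟨g, rfl⟩
    exact ⟨g.1, g.2, rfl⟩

/-- The entries of the generic matrix and the number one. -/
noncomputable def gen (a b : ι ⊕ Unit) : MvPolynomial (ι × ι) K :=
  fromBlocks (Matrix.of fun i j => MvPolynomial.X (i, j)) 0 0 1 a b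

lemma gen_mem (a b : ι ⊕ Unit) : gen (K := K) a b ∈ Pd K (ι × ι) 1 := by
  rcases a with a | a <;> rcases b with b | b
  · exact X_mem_Pd _
  · exact Submodule.zero_mem _
  · exact Submodule.zero_mem _
  · exact one_mem_Pd 1

lemma gen_span : Pd K (ι × ι) 1 = span K (Set.range fun s : (ι ⊕ Unit) × (ι ⊕ Unit) =>
    gen (K := K) s.1 s.2) := by
  apply le_antisymm
  · intro f hf
    rw [MvPolynomial.mem_restrictTotalDegree] at hf
    rw [f.as_sum]
    refine Submodule.sum_mem _ fun s hs => ?_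
    have hs1 : (s.sum fun _ e => e) ≤ 1 := (MvPolynomial.le_totalDegree hs).trans hf
    have h1 : MvPolynomial.monomial s (MvPolynomial.coeff s f) =
        MvPolynomial.coeff s f • MvPolynomial.monomial s (1 : K) := by
      rw [MvPolynomial.smul_monomial, smul_eq_mul, mul_one]
    rw [h1]
    refine Submodule.smul_mem _ _ ?_
    rcases Nat.le_one_iff_eq_zero_or_eq_one.1 hs1 with h2 | h2
    · have h3 : s = 0 := by
        ext a
        by_contra hne
        have h4 : s a ≤ s.sum fun _ e => e := by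
          rw [Finsupp.sum]
          exact Finset.single_le_sum (f := fun a => s a) (fun _ _ => Nat.zero_le _)
            (Finsupp.mem_support_iff.2 hne)
        rw [h2] at h4
        exact hne (Nat.le_zero.1 h4)
      rw [h3]
      exact subset_span ⟨(Sum.inr (), Sum.inr ()), rfl⟩
    · obtain ⟨a, ha⟩ := (Finsupp.sum_eq_one_iff s).1 h2
      rw [ha]
      exact subset_span ⟨(Sum.inl a.1, Sum.inl a.2), rfl⟩
  · rw [span_le]
    rintro _ ⟨s, rfl⟩
    exact gen_mem _ _

lemma gen_span_pow (n : ℕ) : Pd K (ι × ι) n = span K (Set.range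
    fun s : (Fin n → ι ⊕ Unit) × (Fin n → ι ⊕ Unit) => ∏ i, gen (K := K) (s.1 i) (s.2 i)) := by
  rw [Pd_eq, gen_span, span_pow]
  congr 1
  ext f
  rw [Set.mem_pow]
  constructor
  · rintro ⟨u, rfl⟩
    choose v hv using fun i => (u i).2
    refine ⟨(fun i => (v i).1, fun i => (v i).2), ?_⟩
    rw [List.prod_ofFn]
    exact Finset.prod_congr rfl fun i _ => hv i
  · rintro ⟨s, rfl⟩
    refine ⟨fun i => ⟨gen (s.1 i) (s.2 i), (s.1 i, s.2 i), rfl⟩, ?_⟩
    rw [List.prod_ofFn]

lemma val_gen (g : GL ι K) (a b : ι ⊕ Unit) :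
    val (gen a b) g = fromBlocks (g : Matrix ι ι K) 0 0 1 a b := by
  rcases a with a | a <;> rcases b with b | b
  · show val (MvPolynomial.X (a, b)) g = _
    rw [val, MvPolynomial.eval_X]
    rfl
  · show val 0 g = 0
    rw [val, map_zero]
  · show val 0 g = 0
    rw [val, map_zero]
  · show val 1 g = 1
    rw [val, map_one]

theorem algDim_eq (G : Subgroup (GL ι K)) (n : ℕ) : algDim G n = hilb G n := by
  have h1 : algDim G n =
      finrank K (span K (Set.range fun g : G => tpow n ((g : GL ι K) : Matrix ι ι K))) := by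
    rw [← adjoin_eq]
    rfl
  let e : Matrix (Fin n → ι ⊕ Unit) (Fin n → ι ⊕ Unit) K ≃ₗ[K]
      ((Fin n → ι ⊕ Unit) × (Fin n → ι ⊕ Unit) → K) :=
    (LinearEquiv.curry K K (Fin n → ι ⊕ Unit) (Fin n → ι ⊕ Unit)).symm
  have h2 : finrank K (span K (Set.range fun g : G => tpow n ((g : GL ι K) : Matrix ι ι K))) =
      finrank K (span K (Set.range fun (g : G) (s : (Fin n → ι ⊕ Unit) × (Fin n → ι ⊕ Unit)) =>
        tpow n ((g : GL ι K) : Matrix ι ι K) s.1 s.2)) := by
    rw [← LinearEquiv.finrank_map_eq e, Submodule.map_span, ← Set.range_comp]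
    rfl
  rw [h1, h2, finrank_rows, hilb, V1_pow]
  have h3 : ((Pd K (ι × ι) n).map (fr G).toLinearMap).map (Al G).val.toLinearMap =
      span K (Set.range fun (s : (Fin n → ι ⊕ Unit) × (Fin n → ι ⊕ Unit)) (g : G) =>
        tpow n ((g : GL ι K) : Matrix ι ι K) s.1 s.2) := by
    rw [← Submodule.map_comp, gen_span_pow, Submodule.map_span, ← Set.range_comp]
    congr 2
    funext s g
    show val (∏ i, gen (s.1 i) (s.2 i)) g.1 = _
    rw [val_eq, map_prod]
    exact Finset.prod_congr rfl fun i _ => val_gen g.1 _ _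
  rw [← h3]
  exact (Submodule.equivMapOfInjective (Al G).val.toLinearMap Subtype.val_injective
    ((Pd K (ι × ι) n).map (fr G).toLinearMap)).finrank_eq.symm
end Pool.Agent.R920.LG
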