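import Pool.Agent.R920.LG.Num
import Pool.Agent.R920.LG.Ops

/-!
# The law for the algebras generated by two groups
-/

open Matrix Module Submodule

namespace Pool.Agent.R920.LG

open Pool.Agent.R920.PD Pool.Agent.R920.PD.Points
open Pool.Agent.Y133.Half (HasIndex)

variable {K ι : Type*} [Field K] [Fintype ι] [DecidableEq ι]

lemma noZeroDiv_of {G : Subgroup (GL ι K)} (hG : IsIrreducible (G : Set (GL ι K))) :
    Points.NoZeroDiv (V1 G) := by
  have := domain_of hG
  intro n x _ y _ hxy
  exact mul_eq_zero.1 hxy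

theorem law {S G : Subgroup (GL ι K)} (h : S ≤ G) (hS : IsIrreducible (S : Set (GL ι K)))
    (a m : ℕ → ℕ) (ha : ∀ n, a n = algDim S n) (hm : ∀ n, m n = algDim G n) :
    HasIndex m a (ENat.card (G ⧸ (zclosure S).subgroupOf G)) ∧
      (∀ r : ℕ, ENat.card (G ⧸ (zclosure S).subgroupOf G) = r → ∀ n, m n ≤ r * a n) ∧
      (G ≤ zclosure S ↔ ∀ n, a n = m n) ∧
      (∀ d n, a d = m d ∨ ((2 : ℝ) - 2 * d * a 1 / (n + 1)) * a n ≤ m n) ∧
      (IsIrreducible (G : Set (GL ι K)) →
        ∀ d n, a d = m d ∨ (n + 1) * a n ≤ 3 * d * a 1 * m n) := by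
  have hdom := domain_of hS
  have hP := points h
  have ea : a = hilb S := funext fun n => (ha n).trans (algDim_eq S n)
  have em : m = fun n => finrank K (V1 G ^ n : Submodule K _) :=
    funext fun n => (hm n).trans (algDim_eq G n)
  have hne : Nonempty G := ⟨1⟩
  obtain ⟨h1, h2, h3⟩ := hP.law
  rw [num_cosets h] at h1 h2 h3
  subst ea em
  refine ⟨h2, ?_, ?_, ?_, ?_⟩
  · intro r hr n
    exact hP.upper ((num_cosets h).trans hr) n
  · rw [← h3]
    constructor
    · intro hG
      have h4 : (zclosure S).subgroupOf G = ⊤ := Subgroup.subgroupOf_eq_top.2 hG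
      rw [h4]
      apply le_antisymm _ (by rw [← h4]; exact h1)
      rw [ENat.card_le_one_iff_subsingleton]
      exact QuotientGroup.subsingleton_quotient_top
    · intro h4
      have h5 : Subsingleton (G ⧸ (zclosure S).subgroupOf G) :=
        (ENat.card_le_one_iff_subsingleton _).1 h4.le
      intro g hg
      have h6 : (QuotientGroup.mk (1 : G) : G ⧸ (zclosure S).subgroupOf G) =
        QuotientGroup.mk (⟨g, hg⟩ : G) := Subsingleton.elim _ _
      have h7 := QuotientGroup.eq.1 h6
      rw [inv_one, one_mul] at h7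
      exact h7
  · intro d n
    rcases eq_or_ne (hilb S d) (finrank K (V1 G ^ d : Submodule K _)) with h4 | h4
    · exact Or.inl h4
    · exact Or.inr (hP.gap h4 n)
  · intro hG d n
    rcases eq_or_ne (hilb S d) (finrank K (V1 G ^ d : Submodule K _)) with h4 | h4
    · exact Or.inl h4
    · have := domain_of hG
      exact Or.inr (hP.rate (noZeroDiv_of hG) h4 n)

end Pool.Agent.R920.LG
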