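import Pool.Agent.R920.LG.Pts
import Pool.Agent.R920.PD.Weak

/-!
# The number of the cosets
-/

open Matrix Module Submodule

namespace Pool.Agent.R920.PD.Points

variable {k S L : Type*} [Field k] [CommRing S] [Algebra k S] [CommRing L] [Algebra k L]
  [IsDomain L] {ι : Type*} {V : Submodule k S} {ε : ι → S →ₐ[k] L} {p : ℕ → ℕ}

/-- The number of the points is the number of the ideals. -/
lemma num_eq [Nonempty ι] (h : Points V ε p) : num V ε = (Set.range (kid V ε)).encard := by
  classical
  apply le_antisymm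
  · apply iSup_le
    intro d
    have h2 : ∀ U ∈ zers V ε d, ∃ i, zer V ε d i = U := fun U hU => hU
    choose! g hg using h2
    refine Set.encard_le_encard_of_injOn (f := fun U => kid V ε (g U))
      (fun U _ => ⟨g U, rfl⟩) ?_
    intro U hU U' hU' hUU'
    rw [← hg U hU, ← hg U' hU']
    exact zer_of_kid hUU' d
  · have key : ∀ r : ℕ, (r : ℕ∞) ≤ (Set.range (kid V ε)).encard → (r : ℕ∞) ≤ num V ε := by
      intro r h1
      obtain ⟨t, ht, htc⟩ := Set.exists_subset_encard_eq h1
      have htf : t.Finite := Set.finite_of_encard_eq_coe htc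
      choose! g hg using fun (x : Ideal (Algebra.adjoin k (V : Set S))) (hx : x ∈ t) => ht hx
      have h2 : ∀ x ∈ t, ∀ y ∈ t, x ≠ y → ∃ n, zer V ε n (g x) ≠ zer V ε n (g y) := by
        intro x hx y hy hxy
        apply h.kid_of_zer
        rw [hg x hx, hg y hy]
        exact hxy
      choose! n hn' using h2
      set N := ∑ x ∈ htf.toFinset, ∑ y ∈ htf.toFinset, n x y with hN
      have h3 : Set.InjOn (fun x => zer V ε N (g x)) t := by
        intro x hx y hy hxy
        by_contra hne
        apply hn' x hx y hy hne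
        refine h.zer_mono ?_ hxy
        rw [hN]
        refine (Finset.single_le_sum (f := fun y => n x y) (fun _ _ => Nat.zero_le _)
          (htf.mem_toFinset.2 hy)).trans ?_
        exact Finset.single_le_sum (f := fun x => ∑ y ∈ htf.toFinset, n x y)
          (fun _ _ => Nat.zero_le _) (htf.mem_toFinset.2 hx)
      have h4 : t.encard ≤ (zers V ε N).encard :=
        Set.encard_le_encard_of_injOn (fun x _ => ⟨g x, rfl⟩) h3
      rw [← htc]
      exact h4.trans (le_iSup (fun d => (zers V ε d).encard) N)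
    exact ENat.forall_natCast_le_iff_le.1 key

end Pool.Agent.R920.PD.Points

namespace Pool.Agent.R920.LG

open Pool.Agent.R920.PD Pool.Agent.R920.PD.Points

variable {K ι : Type*} [Field K] [Fintype ι] [DecidableEq ι]

lemma fr_mem (S : Subgroup (GL ι K)) (f : MvPolynomial (ι × ι) K) :
    fr S f ∈ Algebra.adjoin K (V1 S : Set (Al S)) := by
  apply pow_le_adjoin (V1 S) f.totalDegree
  rw [V1_pow]
  exact ⟨f, (MvPolynomial.mem_restrictTotalDegree _ _ _).2 le_rfl, rfl⟩

/-- Two cosets define the same ideal if and only if they have the same closure. -/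
lemma kid_eq_iff {S G : Subgroup (GL ι K)} (h : S ≤ G) [IsDomain (Al S)] (g g' : G) :
    kid (V1 G) (ev h) g = kid (V1 G) (ev h) g' ↔ (g⁻¹ * g' : G) ∈ (zclosure S).subgroupOf G := by
  rw [Subgroup.mem_subgroupOf]
  constructor
  · intro hk f hf
    have h1 : (⟨fr G (tr ((g⁻¹ : G) : GL ι K) ((1 : GL ι K) : Matrix ι ι K) f), fr_mem G _⟩ :
        Algebra.adjoin K (V1 G : Set (Al G))) ∈ kid (V1 G) (ev h) g := by
      rw [mem_kid]
      show ev h g (fr G _) = 0
      rw [ev_fr, ← map_zero (fr S)]
      apply fr_ext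
      intro x hx
      rw [val_tr, val_tr, val_eq 0, map_zero]
      have h2 := hf x hx
      simpa using h2
    rw [hk, mem_kid] at h1
    have h2 : ev h g' (fr G (tr ((g⁻¹ : G) : GL ι K) ((1 : GL ι K) : Matrix ι ι K) f)) = 0 := h1
    rw [ev_fr] at h2
    have h3 := congrFun (congrArg Subtype.val h2) 1
    rw [fr_apply, val_tr, val_tr] at h3
    simpa using h3
  · intro hg
    have key : ∀ g g' : G, ((g⁻¹ * g' : G) : GL ι K) ∈ zclosure S →
        kid (V1 G) (ev h) g ≤ kid (V1 G) (ev h) g' := by
      intro g g' hg u hu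
      rw [mem_kid] at hu ⊢
      obtain ⟨f, hf⟩ := fr_surj G (u : Al G)
      rw [← hf, ev_fr] at hu ⊢
      rw [← map_zero (fr S)]
      apply fr_ext
      intro x hx
      rw [val_eq 0, map_zero, val_tr, mul_one]
      have h1 : ((g⁻¹ * g' : G) : GL ι K) * x ∈ zclosure S :=
        (zclosure S).mul_mem hg (le_zclosure S hx)
      have h2 := h1 (tr ((g : G) : GL ι K) ((1 : GL ι K) : Matrix ι ι K) f) (fun s hs => by
        have h3 := congrFun (congrArg Subtype.val hu) ⟨s, hs⟩
        exact h3)
      rw [val_tr, mul_one] at h2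
      have h3 : ((g : G) : GL ι K) * (((g⁻¹ * g' : G) : GL ι K) * x) = (g' : GL ι K) * x := by
        rw [Subgroup.coe_mul, Subgroup.coe_inv]
        group
      rw [h3] at h2
      exact h2
    apply le_antisymm (key g g' hg)
    apply key g' g
    have h1 := (zclosure S).inv_mem hg
    have h2 : (((g⁻¹ * g' : G) : GL ι K))⁻¹ = ((g'⁻¹ * g : G) : GL ι K) := by
      rw [Subgroup.coe_mul, Subgroup.coe_mul, Subgroup.coe_inv, Subgroup.coe_inv]
      group
    rwa [h2] at h1

/-- The number of the ideals is the number of the cosets of the closure. -/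
theorem num_cosets {S G : Subgroup (GL ι K)} (h : S ≤ G) [IsDomain (Al S)] :
    num (V1 G) (ev h) = ENat.card (G ⧸ (zclosure S).subgroupOf G) := by
  rw [(points h).num_eq, Set.encard]
  apply ENat.card_congr
  symm
  refine Equiv.ofBijective (Quotient.lift (fun g : G => (⟨kid (V1 G) (ev h) g, g, rfl⟩ :
    Set.range (kid (V1 G) (ev h)))) ?_) ⟨?_, ?_⟩
  · intro g g' hgg
    apply Subtype.ext
    exact (kid_eq_iff h g g').2 (QuotientGroup.leftRel_apply.1 hgg)
  · rintro ⟨g⟩ ⟨g'⟩ hgg
    apply Quotient.sound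
    exact QuotientGroup.leftRel_apply.2 ((kid_eq_iff h g g').1 (congrArg Subtype.val hgg))
  · rintro ⟨_, g, rfl⟩
    exact ⟨Quotient.mk _ g, rfl⟩

end Pool.Agent.R920.LG
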