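import Pool.Agent.R920.LG.Defs
import Pool.Agent.R920.PD.Law

/-!
# Polynomials in the entries
-/

open Matrix Module Submodule

namespace Pool.Agent.R920.LG

section Deg

variable {k σ : Type*} [Field k]

/-- The polynomials of degree at most `n`. -/
noncomputable abbrev Pd (k σ : Type*) [Field k] (n : ℕ) : Submodule k (MvPolynomial σ k) :=
  MvPolynomial.restrictTotalDegree σ k n

lemma one_mem_Pd (n : ℕ) : (1 : MvPolynomial σ k) ∈ Pd k σ n := by
  rw [MvPolynomial.mem_restrictTotalDegree, MvPolynomial.totalDegree_one]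
  exact Nat.zero_le n

lemma X_mem_Pd (s : σ) : (MvPolynomial.X s : MvPolynomial σ k) ∈ Pd k σ 1 := by
  rw [MvPolynomial.mem_restrictTotalDegree, MvPolynomial.totalDegree_X]

lemma monomial_mem (s : σ →₀ ℕ) :
    (MvPolynomial.monomial s (1 : k)) ∈ (Pd k σ 1) ^ (s.sum fun _ e => e) := by
  classical
  rw [MvPolynomial.monomial_eq, map_one, one_mul, Finsupp.prod, Finsupp.sum]
  induction s.support using Finset.induction_on with
  | empty =>
    rw [Finset.prod_empty, Finset.sum_empty, pow_zero]
    exact one_le.1 le_rfl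
  | insert a t ha ih =>
    rw [Finset.prod_insert ha, Finset.sum_insert ha, pow_add]
    exact mul_mem_mul (pow_mem_pow _ (X_mem_Pd a) _) ih

lemma Pd_eq (n : ℕ) : Pd k σ n = (Pd k σ 1) ^ n := by
  apply le_antisymm
  · intro p hp
    rw [MvPolynomial.mem_restrictTotalDegree] at hp
    rw [p.as_sum]
    refine Submodule.sum_mem _ fun s hs => ?_
    have h1 : MvPolynomial.monomial s (MvPolynomial.coeff s p) =
        MvPolynomial.coeff s p • MvPolynomial.monomial s (1 : k) := by
      rw [MvPolynomial.smul_monomial, smul_eq_mul, mul_one]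
    rw [h1]
    refine Submodule.smul_mem _ _ ?_
    exact Pool.Agent.R920.PD.pow_mono (one_mem_Pd 1)
      ((MvPolynomial.le_totalDegree hs).trans hp) (monomial_mem s)
  · induction n with
    | zero =>
      rw [pow_zero]
      exact one_le.2 (one_mem_Pd 0)
    | succ n ih =>
      rw [pow_succ]
      rw [mul_le]
      intro a ha b hb
      have h1 := ih ha
      rw [MvPolynomial.mem_restrictTotalDegree] at h1 hb ⊢
      exact (MvPolynomial.totalDegree_mul a b).trans (Nat.add_le_add h1 hb)

end Deg

variable {K ι : Type*} [Field K] [Fintype ι] [DecidableEq ι]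

/-- `f ↦ f (g x h)`. -/
noncomputable def tr (g h : Matrix ι ι K) :
    MvPolynomial (ι × ι) K →ₐ[K] MvPolynomial (ι × ι) K :=
  MvPolynomial.aeval fun s => ∑ i, ∑ j, MvPolynomial.C (g s.1 i * h j s.2) * MvPolynomial.X (i, j)

/-- The value as a homomorphism. -/
noncomputable def valHom (x : GL ι K) : MvPolynomial (ι × ι) K →ₐ[K] K :=
  MvPolynomial.aeval fun s => (x : Matrix ι ι K) s.1 s.2

lemma val_eq (f : MvPolynomial (ι × ι) K) (x : GL ι K) : val f x = valHom x f := rfl

lemma val_tr (g h x : GL ι K) (f : MvPolynomial (ι × ι) K) :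
    val (tr (g : Matrix ι ι K) (h : Matrix ι ι K) f) x = val f (g * x * h) := by
  rw [val_eq, val_eq, ← AlgHom.comp_apply]
  congr 1
  unfold valHom tr
  apply MvPolynomial.algHom_ext
  intro s
  rw [AlgHom.comp_apply, MvPolynomial.aeval_X, MvPolynomial.aeval_X, map_sum]
  simp only [map_sum, map_mul, MvPolynomial.aeval_X, MvPolynomial.aeval_C, Units.val_mul,
    Matrix.mul_apply, Finset.sum_mul, Algebra.algebraMap_self, RingHom.id_apply]
  rw [Finset.sum_comm]
  refine Finset.sum_congr rfl fun i _ => Finset.sum_congr rfl fun j _ => ?_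
  ring

lemma tr_mem (g h : Matrix ι ι K) {n : ℕ} {f : MvPolynomial (ι × ι) K}
    (hf : f ∈ Pd K (ι × ι) n) : tr g h f ∈ Pd K (ι × ι) n := by
  have key : (Pd K (ι × ι) 1) ≤ (Pd K (ι × ι) 1).comap (tr g h).toLinearMap := by
    intro f hf
    rw [MvPolynomial.mem_restrictTotalDegree] at hf
    rw [mem_comap, f.as_sum, map_sum]
    refine Submodule.sum_mem _ fun s hs => ?_
    have hs1 : (s.sum fun _ e => e) ≤ 1 := (MvPolynomial.le_totalDegree hs).trans hf
    have h1 : MvPolynomial.monomial s (MvPolynomial.coeff s f) =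
        MvPolynomial.coeff s f • MvPolynomial.monomial s (1 : K) := by
      rw [MvPolynomial.smul_monomial, smul_eq_mul, mul_one]
    rw [h1, map_smul]
    refine Submodule.smul_mem _ _ ?_
    rcases Nat.le_one_iff_eq_zero_or_eq_one.1 hs1 with h2 | h2
    · have h3 : s = 0 := by
        ext a
        by_contra hne
        have h4 : s a ≤ s.sum fun _ e => e := by
          rw [Finsupp.sum]
          exact Finset.single_le_sum (f := fun a => s a) (fun _ _ => Nat.zero_le _)
            (Finsupp.mem_support_iff.2 hne)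
        rw [h2] at h4
        exact hne (Nat.le_zero.1 h4)
      rw [h3]
      show tr g h 1 ∈ _
      rw [map_one]
      exact one_mem_Pd 1
    · obtain ⟨a, ha⟩ := (Finsupp.sum_eq_one_iff s).1 h2
      rw [ha]
      show tr g h (MvPolynomial.X a) ∈ _
      rw [tr, MvPolynomial.aeval_X]
      refine Submodule.sum_mem _ fun i _ => Submodule.sum_mem _ fun j _ => ?_
      rw [← MvPolynomial.smul_eq_C_mul]
      exact Submodule.smul_mem _ _ (X_mem_Pd _)
  rw [Pd_eq] at hf ⊢
  have h1 : ((Pd K (ι × ι) 1) ^ n).map (tr g h).toLinearMap ≤ (Pd K (ι × ι) 1) ^ n := by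
    rw [Pool.Agent.R920.PD.map_pow_eq]
    exact pow_le_pow_left' (map_le_iff_le_comap.2 key) n
  exact h1 ⟨f, hf, rfl⟩

end Pool.Agent.R920.LG
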