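import Pool.Agent.R920.LG.Poly

/-!
# The closure of a group and the cosets
-/

open Matrix Module Submodule

namespace Pool.Agent.R920.LG

variable {K ι : Type*} [Field K] [Fintype ι] [DecidableEq ι]

lemma left_mem {S : Subgroup (GL ι K)} {g : GL ι K} (hg : InClosure (S : Set (GL ι K)) g)
    {s : GL ι K} (hs : s ∈ S) {f : MvPolynomial (ι × ι) K} (hf : ∀ t ∈ S, val f t = 0) :
    val f (s * g) = 0 := by
  have h1 := hg (tr (s : Matrix ι ι K) ((1 : GL ι K) : Matrix ι ι K) f) (fun t ht => by
    rw [val_tr, mul_one]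
    exact hf _ (S.mul_mem hs ht))
  rw [val_tr, mul_one] at h1
  exact h1

lemma closure_mul {S : Subgroup (GL ι K)} {g h : GL ι K}
    (hg : InClosure (S : Set (GL ι K)) g) (hh : InClosure (S : Set (GL ι K)) h) :
    InClosure (S : Set (GL ι K)) (g * h) := by
  intro f hf
  have h1 := hg (tr ((1 : GL ι K) : Matrix ι ι K) (h : Matrix ι ι K) f) (fun t ht => by
    rw [val_tr, one_mul]
    exact left_mem hh ht hf)
  rw [val_tr, one_mul] at h1
  exact h1

/-- Functions on all matrices. -/
noncomputable def fnU : MvPolynomial (ι × ι) K →ₗ[K] (GL ι K → K) where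
  toFun f x := val f x
  map_add' f g := funext fun x => map_add (valHom x) f g
  map_smul' r f := funext fun x => map_smul (valHom x) r f

lemma closure_inv {S : Subgroup (GL ι K)} {g : GL ι K} (hg : InClosure (S : Set (GL ι K)) g) :
    InClosure (S : Set (GL ι K)) g⁻¹ := by
  intro f hf
  set n := f.totalDegree with hn
  let J : Submodule K (GL ι K → K) := (Pd K (ι × ι) n).map fnU ⊓
    { carrier := {u | ∀ t ∈ S, u t = 0}
      add_mem' := fun {a b} ha hb t ht => by
        rw [Pi.add_apply, ha t ht, hb t ht, add_zero]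
      zero_mem' := fun t _ => rfl
      smul_mem' := fun r a ha t ht => by
        rw [Pi.smul_apply, ha t ht, smul_zero] }
  have hfin : Module.Finite K ((Pd K (ι × ι) n).map fnU) := Module.Finite.map _ _
  have hJ : FiniteDimensional K J := Submodule.finiteDimensional_inf_left _ _
  let R : (GL ι K → K) →ₗ[K] (GL ι K → K) :=
    { toFun := fun u x => u (x * g)
      map_add' := fun _ _ => rfl
      map_smul' := fun _ _ => rfl }
  have hRJ : ∀ u ∈ J, R u ∈ J := by
    rintro u ⟨⟨f, hf, rfl⟩, hu⟩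
    refine ⟨⟨tr ((1 : GL ι K) : Matrix ι ι K) (g : Matrix ι ι K) f, tr_mem _ _ hf, ?_⟩, ?_⟩
    · funext x
      show val _ x = val f (x * g)
      rw [val_tr, one_mul]
    · intro t ht
      show val f (t * g) = 0
      exact left_mem hg ht hu
  have hinj : Function.Injective (R.restrict hRJ) := by
    intro u v huv
    apply Subtype.ext
    funext x
    have h1 := congrFun (congrArg Subtype.val huv) (x * g⁻¹)
    have h2 : (u : GL ι K → K) (x * g⁻¹ * g) = (v : GL ι K → K) (x * g⁻¹ * g) := h1
    rwa [inv_mul_cancel_right] at h2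
  have hsurj := LinearMap.surjective_of_injective hinj
  have hfJ : fnU f ∈ J := ⟨⟨f, (MvPolynomial.mem_restrictTotalDegree _ _ _).2 le_rfl, rfl⟩, hf⟩
  obtain ⟨⟨u, hu⟩, hu'⟩ := hsurj ⟨fnU f, hfJ⟩
  have h1 : R u = fnU f := congrArg Subtype.val hu'
  have h2 := congrFun h1 g⁻¹
  have h3 : u (g⁻¹ * g) = val f g⁻¹ := h2
  rw [inv_mul_cancel] at h3
  rw [← h3]
  exact hu.2 1 S.one_mem

/-- The Zariski closure of a group. -/
def zclosure (S : Subgroup (GL ι K)) : Subgroup (GL ι K) where
  carrier := {g | InClosure (S : Set (GL ι K)) g}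
  mul_mem' := closure_mul
  one_mem' := fun _ hf => hf 1 S.one_mem
  inv_mem' := closure_inv

lemma mem_zclosure {S : Subgroup (GL ι K)} {g : GL ι K} :
    g ∈ zclosure S ↔ InClosure (S : Set (GL ι K)) g := Iff.rfl

lemma le_zclosure (S : Subgroup (GL ι K)) : S ≤ zclosure S := fun _ hs _ hf => hf _ hs

/-- The restriction of polynomials to `S`. -/
noncomputable def fn (S : Subgroup (GL ι K)) : MvPolynomial (ι × ι) K →ₐ[K] (S → K) :=
  Pi.algHom K (fun _ : S => K) fun x => valHom x.1

lemma fn_apply (S : Subgroup (GL ι K)) (f : MvPolynomial (ι × ι) K) (x : S) :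
    fn S f x = val f x.1 := rfl

/-- The algebra of the polynomial functions on `S`. -/
noncomputable abbrev Al (S : Subgroup (GL ι K)) : Subalgebra K (S → K) := (fn S).range

/-- The restriction of polynomials to `S` as a map to this algebra. -/
noncomputable def fr (S : Subgroup (GL ι K)) : MvPolynomial (ι × ι) K →ₐ[K] Al S :=
  (fn S).rangeRestrict

lemma fr_apply (S : Subgroup (GL ι K)) (f : MvPolynomial (ι × ι) K) (x : S) :
    (fr S f : S → K) x = val f x.1 := rfl

lemma fr_ext {S : Subgroup (GL ι K)} {f g : MvPolynomial (ι × ι) K}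
    (h : ∀ x ∈ S, val f x = val g x) : fr S f = fr S g :=
  Subtype.ext (funext fun x => h x.1 x.2)

lemma fr_surj (S : Subgroup (GL ι K)) : Function.Surjective (fr S) :=
  (fn S).rangeRestrict_surjective

/-- The functions of degree at most one. -/
noncomputable def V1 (S : Subgroup (GL ι K)) : Submodule K (Al S) :=
  (Pd K (ι × ι) 1).map (fr S).toLinearMap

lemma V1_pow (S : Subgroup (GL ι K)) (n : ℕ) :
    V1 S ^ n = (Pd K (ι × ι) n).map (fr S).toLinearMap := by
  rw [V1, ← Pool.Agent.R920.PD.map_pow_eq, ← Pd_eq]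

/-- The dimension of the space of the functions of degree at most `n`. -/
noncomputable def hilb (S : Subgroup (GL ι K)) (n : ℕ) : ℕ := finrank K (V1 S ^ n : Submodule K _)

/-- The restriction to a coset. -/
noncomputable def pull {S G : Subgroup (GL ι K)} (h : S ≤ G) (g : G) :
    (G → K) →ₐ[K] (S → K) :=
  Pi.algHom K (fun _ : S => K) fun x => Pi.evalAlgHom K (fun _ : G => K) (g * ⟨x.1, h x.2⟩)

/-- The restriction to a coset. -/
noncomputable def ev {S G : Subgroup (GL ι K)} (h : S ≤ G) (g : G) : Al G →ₐ[K] Al S :=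
  ((pull h g).comp (Al G).val).codRestrict (Al S) (by
    rintro ⟨_, f, rfl⟩
    refine ⟨tr ((g : GL ι K) : Matrix ι ι K) ((1 : GL ι K) : Matrix ι ι K) f, ?_⟩
    funext x
    show val _ x.1 = val f _
    rw [val_tr, mul_one]
    rfl)

lemma ev_apply {S G : Subgroup (GL ι K)} (h : S ≤ G) (g : G) (u : Al G) (x : S) :
    (ev h g u : S → K) x = (u : G → K) (g * ⟨x.1, h x.2⟩) := rfl

lemma ev_fr {S G : Subgroup (GL ι K)} (h : S ≤ G) (g : G) (f : MvPolynomial (ι × ι) K) :
    ev h g (fr G f) =
      fr S (tr ((g : GL ι K) : Matrix ι ι K) ((1 : GL ι K) : Matrix ι ι K) f) := by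
  apply Subtype.ext
  funext x
  rw [ev_apply, fr_apply, fr_apply, val_tr, mul_one]
  rfl

lemma map_ev {S G : Subgroup (GL ι K)} (h : S ≤ G) (g : G) (n : ℕ) :
    (V1 G ^ n).map (ev h g).toLinearMap = V1 S ^ n := by
  rw [V1_pow, V1_pow]
  apply le_antisymm
  · rintro _ ⟨_, ⟨f, hf, rfl⟩, rfl⟩
    exact ⟨_, tr_mem _ _ hf, (ev_fr h g f).symm⟩
  · rintro _ ⟨f, hf, rfl⟩
    refine ⟨fr G (tr ((g⁻¹ : G) : GL ι K) ((1 : GL ι K) : Matrix ι ι K) f),
      ⟨_, tr_mem _ _ hf, rfl⟩, ?_⟩
    show ev h g (fr G _) = fr S f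
    rw [ev_fr]
    apply fr_ext
    intro x _
    rw [val_tr, val_tr]
    simp

/-- The algebra is a domain if the group is irreducible. -/
lemma domain_of {S : Subgroup (GL ι K)} (h : IsIrreducible (S : Set (GL ι K))) :
    IsDomain (Al S) := by
  have h1 : NoZeroDivisors (Al S) := by
    constructor
    intro a b hab
    obtain ⟨f, rfl⟩ := fr_surj S a
    obtain ⟨g, rfl⟩ := fr_surj S b
    rcases h f g (fun s hs => by
      have h2 := congrFun (congrArg Subtype.val hab) ⟨s, hs⟩
      exact h2) with h2 | h2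
    · left
      exact Subtype.ext (funext fun x => h2 x.1 x.2)
    · right
      exact Subtype.ext (funext fun x => h2 x.1 x.2)
  have h2 : Nontrivial (Al S) := by
    refine ⟨⟨0, 1, fun h0 => ?_⟩⟩
    have h3 := congrFun (congrArg Subtype.val h0) 1
    exact zero_ne_one h3
  exact NoZeroDivisors.to_isDomain _

theorem points {S G : Subgroup (GL ι K)} (h : S ≤ G) [IsDomain (Al S)] :
    Pool.Agent.R920.PD.Points (V1 G) (ev h) (hilb S) where
  fin := by
    rw [V1]
    infer_instance
  one := ⟨1, one_mem_Pd 1, map_one (fr G)⟩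
  img g n := by
    rw [Pool.Agent.R920.PD.img, map_ev]
    rfl
  dense n u _ h0 := by
    apply Subtype.ext
    funext x
    have h1 := congrFun (congrArg Subtype.val (h0 x)) 1
    have h2 : (u : G → K) (x * 1) = 0 := h1
    rwa [mul_one] at h2

end Pool.Agent.R920.LG
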